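import Mathlib

/-! Kerdock sets: `4^k / 2` mutually unbiased real orthogonal sign bases in dimension `4^k`. -/

namespace Pool.Agent.H.MP_99e7cc_gt

open Finset

theorem quad {X : Type*} [AddCommGroup X] [Module (ZMod 2) X] [Module.Finite (ZMod 2) X]
    (B : X →ₗ[ZMod 2] X →ₗ[ZMod 2] ZMod 2) (h : ∀ x, B x x = 0) :
    ∃ q : X → ZMod 2, q 0 = 0 ∧ ∀ x y, q (x + y) = q x + q y + B x y := by
  classical
  let b := Module.finBasis (ZMod 2) X
  let C : X →ₗ[ZMod 2] X →ₗ[ZMod 2] ZMod 2 :=
    b.constr (ZMod 2) fun i => b.constr (ZMod 2) fun j => if i < j then B (b i) (b j) else 0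
  have h2 : ∀ a c : ZMod 2, a + c = 0 → a = c := by decide
  have hs : ∀ x y, B x y = B y x := by
    intro x y
    have := h (x + y)
    simp only [map_add, LinearMap.add_apply, h x, h y, zero_add, add_zero] at this
    exact (h2 _ _ this).symm
  have hC : B = C + C.flip := by
    refine LinearMap.ext_basis b b fun i j => ?_
    simp only [C, LinearMap.add_apply, LinearMap.flip_apply, Module.Basis.constr_basis]
    rcases lt_trichotomy i j with hij | hij | hij
    · simp [hij, hij.not_gt]
    · subst hij; simp [h]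
    · simp [hij, hij.not_gt, hs (b i) (b j)]
  refine ⟨fun x => C x x, by simp, fun x y => ?_⟩
  rw [hC]
  simp only [map_add, LinearMap.add_apply, LinearMap.flip_apply]
  ring

noncomputable def chi (a : ZMod 2) : ℝ := if a = 0 then 1 else -1

theorem chi_add (a b : ZMod 2) : chi (a + b) = chi a * chi b := by
  unfold chi
  have : ∀ a b : ZMod 2, (a + b = 0 ↔ (a = 0 ↔ b = 0)) := by decide
  by_cases ha : a = 0 <;> by_cases hb : b = 0 <;> simp [this, ha, hb]

theorem chi_zero : chi 0 = 1 := by simp [chi]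

theorem chi_ne {a : ZMod 2} (h : a ≠ 0) : chi a = -1 := by simp [chi, h]

theorem chi_sq (a : ZMod 2) : chi a * chi a = 1 := by
  unfold chi; split_ifs <;> norm_num

theorem char_sum {X : Type*} [AddCommGroup X] [Fintype X] (f : X → ZMod 2)
    (hf : ∀ x y, f (x + y) = f x + f y) (h : X) (hh : f h ≠ 0) : ∑ x, chi (f x) = 0 := by
  have e : ∑ x, chi (f x) = ∑ x, chi (f (x + h)) :=
    (Equiv.sum_comp (Equiv.addRight h) fun x => chi (f x)).symm
  simp only [hf, chi_add, chi_ne hh, mul_neg, mul_one, sum_neg_distrib] at e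
  linarith

theorem gauss {X : Type*} [AddCommGroup X] [Fintype X] (g : X → ZMod 2) (B : X → X → ZMod 2)
    (g0 : g 0 = 0) (hg : ∀ x y, g (x + y) = g x + g y + B x y)
    (hB : ∀ h x y, B (x + y) h = B x h + B y h) (hn : ∀ h, h ≠ 0 → ∃ x, B x h ≠ 0) :
    (∑ x, chi (g x)) ^ 2 = Fintype.card X := by
  classical
  have B0 : ∀ x, B x 0 = 0 := by
    intro x
    have := hg x 0
    rw [add_zero, g0, add_zero] at this
    exact (add_eq_left.1 this.symm)
  have e : (∑ x, chi (g x)) ^ 2 = ∑ h, chi (g h) * ∑ x, chi (B x h) := by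
    rw [sq, sum_mul]
    simp only [mul_sum]
    rw [sum_comm (f := fun h x => chi (g h) * chi (B x h))]
    refine sum_congr rfl fun x _ => ?_
    rw [← Equiv.sum_comp (Equiv.addLeft x)]
    refine sum_congr rfl fun h _ => ?_
    simp only [Equiv.coe_addLeft, hg, chi_add]
    rw [← mul_assoc, ← mul_assoc, chi_sq, one_mul]
  rw [e, sum_eq_single 0]
  · simp [g0, B0, chi_zero]
  · intro h _ h0
    obtain ⟨x, hx⟩ := hn h h0
    rw [char_sum (fun x => B x h) (hB h) x hx, mul_zero]
  · simp

section K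
variable {F : Type} [Field F] [Finite F] [Algebra (ZMod 2) F]

noncomputable def KB (u : F) : (F × ZMod 2) →ₗ[ZMod 2] (F × ZMod 2) →ₗ[ZMod 2] ZMod 2 :=
  LinearMap.mk₂ (ZMod 2)
    (fun p r => Algebra.trace (ZMod 2) F (u ^ 2 * p.1 * r.1) + Algebra.trace (ZMod 2) F (u * p.1) * Algebra.trace (ZMod 2) F (u * r.1) + p.2 * Algebra.trace (ZMod 2) F (u * r.1)
      + r.2 * Algebra.trace (ZMod 2) F (u * p.1))
    (fun p p' r => by simp only [Prod.fst_add, Prod.snd_add, mul_add, add_mul, map_add]; ring)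
    (fun c p r => by
      simp only [Prod.smul_fst, Prod.smul_snd, mul_smul_comm, smul_mul_assoc, map_smul,
        smul_eq_mul]; ring)
    (fun p r r' => by simp only [Prod.fst_add, Prod.snd_add, mul_add, add_mul, map_add]; ring)
    (fun c p r => by
      simp only [Prod.smul_fst, Prod.smul_snd, mul_smul_comm, smul_mul_assoc, map_smul,
        smul_eq_mul]; ring)

theorem KB_apply (u : F) (p r : F × ZMod 2) : KB u p r =
    Algebra.trace (ZMod 2) F (u ^ 2 * p.1 * r.1) + Algebra.trace (ZMod 2) F (u * p.1) * Algebra.trace (ZMod 2) F (u * r.1) + p.2 * Algebra.trace (ZMod 2) F (u * r.1)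
      + r.2 * Algebra.trace (ZMod 2) F (u * p.1) := rfl

theorem tr_sq (z : F) : Algebra.trace (ZMod 2) F (z ^ 2) = Algebra.trace (ZMod 2) F z := by
  have := Algebra.trace_eq_of_algEquiv (FiniteField.frobeniusAlgEquivOfAlgebraic (ZMod 2) F) z
  rw [FiniteField.coe_frobeniusAlgEquivOfAlgebraic] at this
  simpa using this

theorem KB_alt (u : F) (p : F × ZMod 2) : KB u p p = 0 := by
  rw [KB_apply, show u ^ 2 * p.1 * p.1 = (u * p.1) ^ 2 by ring, tr_sq]
  generalize Algebra.trace (ZMod 2) F (u * p.1) = t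
  generalize p.2 = a
  revert t a; decide

theorem KB_nd (ho : Odd (Module.finrank (ZMod 2) F)) {u v : F} (huv : u ≠ v) (r : F × ZMod 2)
    (hr : ∀ p, KB u p r + KB v p r = 0) : r = 0 := by
  have hc : CharP F 2 := charP_of_injective_algebraMap (algebraMap (ZMod 2) F).injective 2
  have h2 : ∀ a c : ZMod 2, a + c = 0 → a = c := by decide
  obtain ⟨y, b⟩ := r
  have h1 := hr (0, 1)
  simp only [KB_apply, mul_zero, zero_mul, map_zero, zero_add, one_mul, add_zero] at h1
  have ht := h2 _ _ h1
  set t := Algebra.trace (ZMod 2) F (v * y) with htd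
  have hw : u + v ≠ 0 := fun h => huv (by
    have := CharTwo.add_eq_zero.1 h; exact this)
  have key : (u + v) ^ 2 * y + algebraMap (ZMod 2) F (t + b) * (u + v) = 0 := by
    apply (traceForm_nondegenerate (ZMod 2) F).1
    intro x
    have h3 := hr (x, 0)
    simp only [KB_apply, zero_mul, add_zero, ht, ← htd] at h3
    rw [Algebra.traceForm_apply, CharTwo.add_sq, ← h3]
    have e : ((u ^ 2 + v ^ 2) * y + algebraMap (ZMod 2) F (t + b) * (u + v)) * x =
        u ^ 2 * x * y + v ^ 2 * x * y + ((t + b) • (u * x) + (t + b) • (v * x)) := by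
      simp only [Algebra.smul_def]; ring
    rw [e]
    simp only [map_add, map_smul, smul_eq_mul]
    ring
  have k2 : (u + v) * y = algebraMap (ZMod 2) F (t + b) := by
    have : (u + v) * ((u + v) * y + algebraMap (ZMod 2) F (t + b)) = 0 := by rw [← key]; ring
    exact CharTwo.add_eq_zero.1 ((mul_eq_zero.1 this).resolve_left hw)
  have k3 : t + b = 0 := by
    have := congrArg (Algebra.trace (ZMod 2) F) k2
    rw [add_mul, map_add, h1, Algebra.trace_algebraMap] at this
    obtain ⟨k, hk⟩ := ho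
    rw [hk, add_smul, mul_smul, two_smul, CharTwo.add_self_eq_zero, zero_add, one_smul] at this
    exact this.symm
  rw [k3, map_zero] at k2
  have y0 : y = 0 := (mul_eq_zero.1 k2).resolve_left hw
  have t0 : t = 0 := by rw [htd, y0, mul_zero, map_zero]
  rw [t0, zero_add] at k3
  rw [y0, k3]; rfl

theorem mub0 [Fintype F] [DecidableEq F] (ho : Odd (Module.finrank (ZMod 2) F)) :
    ∃ s : F → (F × ZMod 2) → (F × ZMod 2) → ℝ,
      (∀ u l l', ∑ x, s u l x * s u l' x = if l = l' then (Fintype.card (F × ZMod 2) : ℝ) else 0) ∧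
      ∀ u v, u ≠ v → ∀ l l', (∑ x, s u l x * s v l' x) ^ 2 = Fintype.card (F × ZMod 2) := by
  choose q q0 hq using fun u : F => quad (KB u) (KB_alt u)
  have hX : ∀ l l' : F × ZMod 2, l + l' = 0 → l = l' := by
    have hc : CharP F 2 := charP_of_injective_algebraMap (algebraMap (ZMod 2) F).injective 2
    intro l l' h
    rw [Prod.ext_iff] at h ⊢
    exact ⟨CharTwo.add_eq_zero.1 h.1, CharTwo.add_eq_zero.1 h.2⟩
  refine ⟨fun u l x => chi (q u x + KB (1 : F) x l), fun u l l' => ?_, fun u v huv l l' => ?_⟩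
  · have e : ∀ x, chi (q u x + KB (1 : F) x l) * chi (q u x + KB (1 : F) x l') =
        chi (KB (1 : F) x (l + l')) := by
      intro x
      simp only [map_add, chi_add]
      linear_combination (chi (KB (1 : F) x l) * chi (KB (1 : F) x l')) * chi_sq (q u x)
    simp only [e]
    split_ifs with h
    · subst h
      simp only [map_add, chi_add, chi_sq]
      simp
    · have : ∃ p, KB (1 : F) p (l + l') ≠ 0 := by
        by_contra! hc
        refine h (hX _ _ (KB_nd ho (one_ne_zero (α := F)) _ fun p => ?_))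
        rw [hc p, KB_apply]; simp
      obtain ⟨p, hp⟩ := this
      exact char_sum (fun x => KB (1 : F) x (l + l')) (fun x y => by simp) p hp
  · simp only [← chi_add]
    refine gauss _ (fun x y => KB u x y + KB v x y) (by simp [q0]) (fun x y => ?_)
      (fun h x y => ?_) fun h h0 => ?_
    · simp only [hq, map_add, LinearMap.add_apply]; ring
    · simp only [map_add, LinearMap.add_apply]; ring
    · by_contra! hc
      exact h0 (KB_nd ho huv h hc)

end K

theorem mub (k : ℕ) : ∃ s : Fin (2 * 4 ^ k) → Fin (4 ^ (k + 1)) → Fin (4 ^ (k + 1)) → ℝ,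
      (∀ u l l', ∑ x, s u l x * s u l' x = if l = l' then (4 : ℝ) ^ (k + 1) else 0) ∧
      ∀ u v, u ≠ v → ∀ l l', (∑ x, s u l x * s v l' x) ^ 2 = (4 : ℝ) ^ (k + 1) := by
  classical
  let F := GaloisField 2 (2 * k + 1)
  let _ : Fintype F := Fintype.ofFinite F
  have c1 : Fintype.card F = 2 * 4 ^ k := by
    rw [← Nat.card_eq_fintype_card, GaloisField.card 2 _ (by omega), pow_succ, pow_mul]; ring
  have c2 : Fintype.card (F × ZMod 2) = 4 ^ (k + 1) := by
    rw [Fintype.card_prod, c1, ZMod.card, pow_succ]; ring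
  obtain ⟨s, h1, h2⟩ := mub0 (F := F) (by rw [GaloisField.finrank 2 (by omega)]; exact ⟨k, rfl⟩)
  let e := (Fintype.equivFinOfCardEq c1).symm
  let f := (Fintype.equivFinOfCardEq c2).symm
  refine ⟨fun u l x => s (e u) (f l) (f x), fun u l l' => ?_, fun u v huv l l' => ?_⟩
  · rw [f.sum_comp fun x => s (e u) (f l) x * s (e u) (f l') x, h1, c2]
    simp
  · rw [f.sum_comp fun x => s (e u) (f l) x * s (e v) (f l') x, h2 _ _ (e.injective.ne huv), c2]
    simp

end Pool.Agent.H.MP_99e7cc_gt
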