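import Mathlib

/-! Contraction principle and a balanced splitting of a family of unit vectors. -/

namespace Pool.Agent.H.MP_99e7cc_gt

open Finset
open scoped RealInnerProductSpace

def sg (b : Bool) : ℝ := if b then 1 else -1

theorem sg_not (b : Bool) : sg (!b) = - sg b := by cases b <;> simp [sg]

theorem sg_sq (b : Bool) : sg b * sg b = 1 := by cases b <;> simp [sg]

theorem sum_cons {N : ℕ} (G : (Fin (N + 1) → Bool) → ℝ) :
    ∑ e, G e = ∑ e : Fin N → Bool, (G (Fin.cons true e) + G (Fin.cons false e)) := by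
  rw [← (Fin.consEquiv fun _ => Bool).sum_comp, Fintype.sum_prod_type, Fintype.sum_bool,
    sum_add_distrib]
  rfl

theorem pair {T : Type*} [Finite T] [Nonempty T] (a f : T → ℝ) :
    (⨆ t, (a t + |f t|)) + (⨆ t, (a t - |f t|)) ≤ (⨆ t, (a t + f t)) + ⨆ t, (a t - f t) := by
  obtain ⟨s, hs⟩ := exists_eq_ciSup_of_finite (f := fun t => a t + |f t|)
  obtain ⟨t, ht⟩ := exists_eq_ciSup_of_finite (f := fun t => a t - |f t|)
  rw [← hs, ← ht]
  have h1 := fun x => le_ciSup (Finite.bddAbove_range fun t => a t + f t) x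
  have h2 := fun x => le_ciSup (Finite.bddAbove_range fun t => a t - f t) x
  have h3 := abs_sub_abs_le_abs_sub (f s) (f t)
  have := h1 s; have := h1 t; have := h2 s; have := h2 t
  rcases abs_cases (f s - f t) with h | h <;> linarith [h.1]

theorem contraction {T : Type*} [Finite T] [Nonempty T] (N : ℕ) :
    ∀ (a : T → ℝ) (f : Fin N → T → ℝ),
    ∑ e : Fin N → Bool, (⨆ t, (a t + ∑ i, sg (e i) * |f i t|)) ≤
      ∑ e : Fin N → Bool, ⨆ t, (a t + ∑ i, sg (e i) * f i t) := by
  induction N with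
  | zero => intro a f; simp
  | succ N ih =>
    intro a f
    rw [sum_cons, sum_cons]
    simp only [Fin.sum_univ_succ, Fin.cons_zero, Fin.cons_succ, sg, if_true, one_mul,
      Bool.false_eq_true, if_false, neg_mul]
    have h1 := ih (fun t => a t + f 0 t) fun i => f i.succ
    have h2 := ih (fun t => a t - f 0 t) fun i => f i.succ
    simp only [sg] at h1 h2
    have h3 := add_le_add h1 h2
    rw [← sum_add_distrib, ← sum_add_distrib] at h3
    refine le_trans (sum_le_sum fun e _ => ?_) (h3.trans_eq (sum_congr rfl fun e _ => ?_))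
    · have := pair (fun t => a t + ∑ i : Fin N, (if e i = true then 1 else -1) * |f i.succ t|) (f 0)
      refine le_of_eq_of_le ?_ (this.trans_eq ?_) <;> congr 2 <;> (funext t; ring)
    · congr 2 <;> (funext t; ring)

theorem para {E : Type*} [NormedAddCommGroup E] [InnerProductSpace ℝ E] (N : ℕ) :
    ∀ (w : E) (v : Fin N → E), (∀ i, ‖v i‖ = 1) →
    ∑ e : Fin N → Bool, ‖w + ∑ i, sg (e i) • v i‖ ^ 2 = 2 ^ N * (‖w‖ ^ 2 + N) := by
  induction N with
  | zero => intro w v _; simp
  | succ N ih =>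
    intro w v hv
    rw [sum_cons]
    simp only [Fin.sum_univ_succ, Fin.cons_zero, Fin.cons_succ, ← add_assoc]
    rw [sum_add_distrib, ih _ _ fun i => hv _, ih _ _ fun i => hv _]
    have := parallelogram_law_with_norm ℝ w (v 0)
    simp only [sg, if_true, one_smul, Bool.false_eq_true, if_false, neg_smul, ← sub_eq_add_neg]
    rw [hv] at this
    push_cast
    linear_combination (2 : ℝ) ^ N * this

theorem split {E : Type*} [NormedAddCommGroup E] [InnerProductSpace ℝ E] {N : ℕ}
    (v : Fin N → E) (hv : ∀ i, ‖v i‖ = 1) {ρ : ℝ} (hρ : 0 < ρ) (hN : (N : ℝ) ≤ ρ ^ 2) :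
    ∃ e : Fin N → Bool, 0 ≤ ∑ i, sg (e i) ∧
      ∀ y : E, ‖y‖ ≤ 1 → ∑ i, sg (e i) * |⟪v i, y⟫| ≤ 2 * ρ := by
  by_contra! hc
  have : ∀ e : Fin N → Bool, ∃ y : E, ‖y‖ ≤ 1 ∧
      (0 ≤ ∑ i, sg (e i) → 2 * ρ < ∑ i, sg (e i) * |⟪v i, y⟫|) := by
    intro e
    by_cases h : 0 ≤ ∑ i, sg (e i)
    · obtain ⟨y, h1, h2⟩ := hc e h
      exact ⟨y, h1, fun _ => h2⟩
    · exact ⟨0, by simp, fun h' => absurd h' h⟩
  choose y hy1 hy2 using this
  let z : Option (Fin N → Bool) → E := fun t => t.elim 0 y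
  have hz : ∀ t, ‖z t‖ ≤ 1 := by rintro (_ | t); simp [z]; exact hy1 t
  have h := contraction (T := Option (Fin N → Bool)) N (fun _ => 0) fun i t => ⟪v i, z t⟫
  simp only [zero_add] at h
  set A : (Fin N → Bool) → ℝ := fun e => ⨆ t, ∑ i, sg (e i) * |⟪v i, z t⟫| with hA
  have hle : ∀ e t, ∑ i, sg (e i) * |⟪v i, z t⟫| ≤ A e := fun e t =>
    le_ciSup (Finite.bddAbove_range fun t => ∑ i, sg (e i) * |⟪v i, z t⟫|) t
  have h0 : ∀ e, 0 ≤ A e := fun e => by simpa [z] using hle e none
  have h1 : ∀ e, 2 * ρ < A e + A fun i => !e i := by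
    intro e
    by_cases h : 0 ≤ ∑ i, sg (e i)
    · have := (hy2 e h).trans_le (hle e (some e))
      linarith [h0 fun i => !e i]
    · have h' : 0 ≤ ∑ i, sg (!e i) := by
        simp only [sg_not, sum_neg_distrib]; linarith
      have := (hy2 _ h').trans_le (hle (fun i => !e i) (some fun i => !e i))
      linarith [h0 e]
  have h2 : ∑ e : Fin N → Bool, A (fun i => !e i) = ∑ e, A e :=
    Equiv.sum_comp (Function.Involutive.toPerm (fun (e : Fin N → Bool) i => !e i)
      (fun e => by funext i; simp)) A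
  have h3 := sum_lt_sum_of_nonempty (s := univ) univ_nonempty fun e _ => h1 e
  rw [sum_add_distrib, h2] at h3
  have h4 : ∀ e : Fin N → Bool, (⨆ t, ∑ i, sg (e i) * ⟪v i, z t⟫) ≤
      (‖0 + ∑ i, sg (e i) • v i‖ ^ 2 / ρ + ρ) / 2 := by
    intro e
    refine ciSup_le fun t => ?_
    have e1 : ∑ i, sg (e i) * ⟪v i, z t⟫ = ⟪∑ i, sg (e i) • v i, z t⟫ := by
      simp [sum_inner, real_inner_smul_left]
    rw [e1, zero_add]
    set w := ∑ i, sg (e i) • v i
    have e2 := real_inner_le_norm w (z t)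
    have e3 : ‖w‖ * ‖z t‖ ≤ ‖w‖ := mul_le_of_le_one_right (norm_nonneg _) (hz t)
    have e4 : 0 ≤ (‖w‖ - ρ) ^ 2 / ρ := by positivity
    have e5 : (‖w‖ - ρ) ^ 2 / ρ = ‖w‖ ^ 2 / ρ + ρ - 2 * ‖w‖ := by field_simp; ring
    linarith
  have h5 := h.trans (sum_le_sum fun e _ => h4 e)
  rw [← sum_div, sum_add_distrib, ← sum_div, para N 0 v hv] at h5
  simp only [sum_const, card_univ, Fintype.card_pi, Fintype.card_bool, prod_const,
    Fintype.card_fin, nsmul_eq_mul, norm_zero, Nat.cast_pow, Nat.cast_ofNat] at h3 h5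
  have h6 : (2 : ℝ) ^ N * (0 ^ 2 + N) / ρ ≤ 2 ^ N * ρ := by
    rw [div_le_iff₀ hρ, mul_assoc]
    exact mul_le_mul_of_nonneg_left (by nlinarith) (by positivity)
  linarith

/-- Fourth moments of mutually unbiased bases. -/
theorem moment {A X : Type*} [Fintype A] [Fintype X] [DecidableEq A] [DecidableEq X]
    (v : A → X → X → ℝ) (d : ℝ) (hd : d * Fintype.card X = 1)
    (h1 : ∀ u l l', ∑ x, v u l x * v u l' x = if l = l' then 1 else 0)
    (h2 : ∀ u w, u ≠ w → ∀ l l', (∑ x, v u l x * v w l' x) ^ 2 = d)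
    (y : X → ℝ) (hy : ∑ x, y x ^ 2 = 1) :
    (∀ u, ∑ l, (∑ x, v u l x * y x) ^ 2 = 1) ∧
      ∑ u, ∑ l, (∑ x, v u l x * y x) ^ 4 ≤ 1 + Fintype.card A * d := by
  have hp : ∀ u, ∑ l, (∑ x, v u l x * y x) ^ 2 = 1 := by
    intro u
    have m1 : Matrix.of (v u) * (Matrix.of (v u)).transpose = 1 := by
      ext l l'; simp [Matrix.mul_apply, h1, Matrix.one_apply]
    have m2 := mul_eq_one_comm.1 m1
    have m3 : ∀ x x', ∑ l, v u l x * v u l x' = if x = x' then 1 else 0 := by
      intro x x'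
      have := congrFun (congrFun m2 x) x'
      simpa [Matrix.mul_apply, Matrix.one_apply] using this
    calc ∑ l, (∑ x, v u l x * y x) ^ 2 = ∑ x, ∑ x', y x * y x' * ∑ l, v u l x * v u l x' := by
          simp only [sq, sum_mul_sum]
          simp only [mul_sum]
          rw [sum_comm]
          refine sum_congr rfl fun x _ => ?_
          rw [sum_comm]
          exact sum_congr rfl fun x' _ => sum_congr rfl fun l _ => by ring
      _ = 1 := by rw [← hy]; simp [m3, sq]
  refine ⟨hp, ?_⟩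
  set a : A × X → ℝ := fun p => ∑ x, v p.1 p.2 x * y x with ha
  set c : A × X → ℝ := fun p => a p ^ 2 - d with hc
  have c0 : ∀ u, ∑ l, c (u, l) = 0 := by
    intro u
    simp only [hc, sum_sub_distrib, ha, hp u, sum_const, card_univ, nsmul_eq_mul]
    linarith
  set W : X × X → ℝ := fun z => ∑ p, c p * (v p.1 p.2 z.1 * v p.1 p.2 z.2) with hW
  set S := ∑ p, c p ^ 2 with hS
  have e1 : ∑ z, W z * (y z.1 * y z.2) = S := by
    have : ∑ z, W z * (y z.1 * y z.2) = ∑ p, c p * a p ^ 2 := by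
      simp only [hW, sum_mul]
      rw [sum_comm]
      refine sum_congr rfl fun p _ => ?_
      simp only [ha, sq, sum_mul_sum, Fintype.sum_prod_type]
      simp only [mul_sum]
      exact sum_congr rfl fun x _ => sum_congr rfl fun x' _ => by ring
    rw [this, hS]
    have h3 : ∑ p, c p * d = 0 := by
      rw [← sum_mul, Fintype.sum_prod_type]; simp [c0]
    rw [← sub_zero (∑ p, c p * a p ^ 2), ← h3, ← sum_sub_distrib]
    exact sum_congr rfl fun p _ => by simp only [hc]; ring
  have e2 : ∑ z, W z ^ 2 = S := by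
    have : ∑ z, W z ^ 2 = ∑ p, ∑ r, c p * c r * (∑ x, v p.1 p.2 x * v r.1 r.2 x) ^ 2 := by
      simp only [hW, sq, sum_mul_sum]
      rw [sum_comm]
      refine sum_congr rfl fun p _ => ?_
      rw [sum_comm]
      refine sum_congr rfl fun r _ => ?_
      simp only [mul_sum, Fintype.sum_prod_type]
      exact sum_congr rfl fun x _ => sum_congr rfl fun x' _ => by ring
    rw [this, hS]
    refine sum_congr rfl fun p _ => ?_
    rw [Fintype.sum_prod_type, sum_eq_single p.1]
    · rw [sum_eq_single p.2]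
      · simp [h1, sq]
      · intro l _ hl
        simp [h1, hl.symm]
      · simp
    · intro u _ hu
      simp only [h2 _ _ hu.symm]
      rw [← sum_mul, ← mul_sum, c0]; simp
    · simp
  have e3 : ∑ z : X × X, (y z.1 * y z.2) ^ 2 = 1 := by
    simp only [mul_pow, Fintype.sum_prod_type, ← sum_mul_sum, hy, mul_one]
  have cs := sum_mul_sq_le_sq_mul_sq univ W fun z => y z.1 * y z.2
  rw [e1, e2, e3] at cs
  have S0 : 0 ≤ S := sum_nonneg fun _ _ => sq_nonneg _
  have S1 : S ≤ 1 := by nlinarith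
  have e4 : ∑ u, ∑ l, (∑ x, v u l x * y x) ^ 4 = S + Fintype.card A * d := by
    have : ∀ u, ∑ l, (∑ x, v u l x * y x) ^ 4 = ∑ l, c (u, l) ^ 2 + d := by
      intro u
      have h5 : ∀ l, (∑ x, v u l x * y x) ^ 4 = c (u, l) ^ 2 + (2 * d * c (u, l) + d * d) := by
        intro l; simp only [hc, ha]; ring
      simp only [h5, sum_add_distrib, ← mul_sum, c0, sum_const, card_univ, nsmul_eq_mul]
      linear_combination d * hd
    simp only [this, sum_add_distrib, hS, Fintype.sum_prod_type, sum_const, card_univ,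
      nsmul_eq_mul]
  linarith

end Pool.Agent.H.MP_99e7cc_gt
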