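import Mathlib
import Pool.Agent.H.MP_99e7cc_gt.A
import Pool.Agent.H.MP_99e7cc_gt.B

/-! The key inequality, and the mean absolute value of a sum of signs. -/

namespace Pool.Agent.H.MP_99e7cc_gt

open Finset
open scoped RealInnerProductSpace

theorem key (k : ℕ) : ∃ (N : ℕ) (v : Fin N → EuclideanSpace ℝ (Fin (4 ^ (k + 1))))
    (e : Fin N → Bool), 0 < N ∧ 0 ≤ ∑ i, sg (e i) ∧ (∀ i, ‖v i‖ = 1) ∧
    (∀ i j, i ≠ j → |⟪v i, v j⟫| ≤ 1 / 2 ^ (k + 1)) ∧
    ∀ y, ∑ i, sg (e i) * |⟪v i, y⟫| ≤ 16 / (3 * 2 ^ (k + 1)) * ∑ i, |⟪v i, y⟫| := by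
  obtain ⟨s, h1, h2⟩ := mub k
  obtain ⟨r, hr⟩ : ∃ r : ℝ, r = 2 ^ (k + 1) := ⟨_, rfl⟩
  have r0 : 0 < r := by rw [hr]; positivity
  have r2 : (4 : ℝ) ^ (k + 1) = r ^ 2 := by
    rw [hr, ← pow_mul, mul_comm, pow_mul]; norm_num
  have r3 : ((2 * 4 ^ k : ℕ) : ℝ) = r ^ 2 / 2 := by rw [← r2]; push_cast; ring
  rw [← hr]
  rw [r2] at h1 h2
  let w : Fin (2 * 4 ^ k) → Fin (4 ^ (k + 1)) → Fin (4 ^ (k + 1)) → ℝ := fun u l x => s u l x / r
  have hw : ∀ u l u' l', ∑ x, w u l x * w u' l' x = (∑ x, s u l x * s u' l' x) / r ^ 2 := by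
    intro u l u' l'
    rw [sum_div]
    exact sum_congr rfl fun x _ => by simp only [w]; field_simp
  have g1 : ∀ u l l', ∑ x, w u l x * w u l' x = if l = l' then 1 else 0 := by
    intro u l l'
    rw [hw, h1]
    split_ifs
    · field_simp
    · simp
  have g2 : ∀ u u', u ≠ u' → ∀ l l', (∑ x, w u l x * w u' l' x) ^ 2 = 1 / r ^ 2 := by
    intro u u' h l l'
    rw [hw, div_pow, h2 _ _ h]; field_simp
  let f := (finProdFinEquiv (m := 2 * 4 ^ k) (n := 4 ^ (k + 1))).symm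
  let v : Fin (2 * 4 ^ k * 4 ^ (k + 1)) → EuclideanSpace ℝ (Fin (4 ^ (k + 1))) :=
    fun i => WithLp.toLp 2 (w (f i).1 (f i).2)
  have hv : ∀ i y, ⟪v i, y⟫ = ∑ x, w (f i).1 (f i).2 x * y x := by
    intro i y
    simp [v, PiLp.inner_apply, mul_comm]
  have n1 : ∀ i, ‖v i‖ = 1 := by
    intro i
    have : ‖v i‖ ^ 2 = 1 := by
      rw [← real_inner_self_eq_norm_sq, hv]
      simpa using g1 (f i).1 (f i).2 (f i).2
    exact (pow_eq_one_iff_of_nonneg (norm_nonneg _) two_ne_zero).1 this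
  obtain ⟨e, he, hs⟩ := split v n1 (ρ := 3 / 4 * r ^ 2) (by positivity) (by
    rw [Nat.cast_mul, r3]; push_cast; rw [r2]; nlinarith [pow_pos r0 4])
  refine ⟨_, v, e, by positivity, he, n1, fun i j hij => ?_, fun y => ?_⟩
  · rw [hv]
    by_cases h : (f i).1 = (f j).1
    · have h' : (f i).2 ≠ (f j).2 := fun h' => hij (f.injective (Prod.ext h h'))
      have := g1 (f j).1 (f i).2 (f j).2
      rw [if_neg h'] at this
      rw [h]
      simp only [v, this, abs_zero]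
      positivity
    · refine abs_le_of_sq_le_sq' ?_ (by positivity) |> abs_le.2
      simp only [v]
      rw [g2 _ _ h, div_pow, one_pow]
  · have unit : ∀ y : EuclideanSpace ℝ (Fin (4 ^ (k + 1))), ‖y‖ = 1 →
        ∑ i, sg (e i) * |⟪v i, y⟫| ≤ 16 / (3 * r) * ∑ i, |⟪v i, y⟫| := by
      intro y hy
      have hy2 : ∑ x, y x ^ 2 = 1 := by
        rw [← EuclideanSpace.real_norm_sq_eq, hy, one_pow]
      obtain ⟨m2, m4⟩ := moment w (1 / r ^ 2) (by simp [r2, r0.ne']) g1 g2 (fun x => y x) hy2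
      have p2 : ∑ i, ⟪v i, y⟫ ^ 2 = r ^ 2 / 2 := by
        simp only [hv]
        rw [f.sum_comp fun p => (∑ x, w p.1 p.2 x * y x) ^ 2, Fintype.sum_prod_type]
        simp only [m2, sum_const, card_univ, Fintype.card_fin, nsmul_eq_mul, r3, mul_one]
      have p4 : ∑ i, ⟪v i, y⟫ ^ 4 ≤ 3 / 2 := by
        simp only [hv]
        rw [f.sum_comp fun p => (∑ x, w p.1 p.2 x * y x) ^ 4, Fintype.sum_prod_type]
        rw [Fintype.card_fin, r3] at m4
        refine m4.trans_eq ?_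
        field_simp; norm_num
      have p1 : ∀ t : ℝ, 3 * r / 4 * t ^ 2 - r ^ 3 / 16 * t ^ 4 ≤ |t| := by
        intro t
        have a0 := abs_nonneg t
        rw [← sq_abs t, show t ^ 4 = |t| ^ 4 by rw [← abs_pow, abs_of_nonneg (by positivity)]]
        set a := |t|
        have : 0 ≤ a * (r * a / 2 - 1) ^ 2 * (r * a / 2 + 2) := by positivity
        nlinarith
      have p5 := sum_le_sum fun i (_ : i ∈ univ) => p1 ⟪v i, y⟫
      rw [sum_sub_distrib, ← mul_sum, ← mul_sum, p2] at p5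
      have p6 : 9 / 32 * r ^ 3 ≤ ∑ i, |⟪v i, y⟫| := by
        have := mul_le_mul_of_nonneg_left p4 (show 0 ≤ r ^ 3 / 16 by positivity)
        nlinarith
      refine (hs y hy.le).trans (le_trans (le_of_eq ?_)
        (mul_le_mul_of_nonneg_left p6 (by positivity)))
      field_simp; norm_num
    by_cases y0 : y = 0
    · simp [y0]
    have := unit (‖y‖⁻¹ • y) (norm_smul_inv_norm y0)
    have hy : 0 < ‖y‖⁻¹ := inv_pos.2 (norm_pos_iff.2 y0)
    simp only [real_inner_smul_right, abs_mul, abs_of_pos hy, mul_left_comm _ ‖y‖⁻¹,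
      ← mul_sum] at this
    exact le_of_mul_le_mul_left this hy

theorem sign_sum (n : ℕ) : ∀ (τ : Fin n → Bool) (g : ℝ → ℝ),
    ∑ e : Fin n → Bool, g (∑ i, sg (τ i) * sg (e i)) =
      ∑ j ∈ range (n + 1), (n.choose j : ℝ) * g (n - 2 * j) := by
  induction n with
  | zero => intro τ g; simp
  | succ n ih =>
    intro τ g
    rw [sum_cons, sum_add_distrib]
    simp only [Fin.sum_univ_succ, Fin.cons_zero, Fin.cons_succ]
    rw [ih (fun i => τ i.succ) fun t => g (sg (τ 0) * sg true + t),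
      ih (fun i => τ i.succ) fun t => g (sg (τ 0) * sg false + t)]
    have := sum_choose_succ_mul (R := ℝ) (fun j _ => g ((n + 1 : ℕ) - 2 * j)) n
    rw [this]
    cases τ 0
    · rw [add_comm]
      congr 1 <;> refine sum_congr rfl fun j _ => ?_ <;> congr 2 <;> simp [sg] <;> ring
    · congr 1 <;> refine sum_congr rfl fun j _ => ?_ <;> congr 2 <;> simp [sg] <;> ring

theorem tele (n j : ℕ) : ∑ i ∈ range (j + 1), ((n + 1).choose i : ℝ) * ((n + 1 : ℕ) - 2 * i) =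
    (n + 1) * n.choose j := by
  induction j with
  | zero => simp
  | succ j ih =>
    rw [sum_range_succ, ih]
    have h1 : ((n + 1 : ℕ) : ℝ) * n.choose j = (n + 1).choose (j + 1) * ((j + 1 : ℕ) : ℝ) := by
      exact_mod_cast Nat.add_one_mul_choose_eq n j
    have h2 : ((n + 1).choose (j + 1) : ℝ) = n.choose j + n.choose (j + 1) := by
      exact_mod_cast Nat.choose_succ_succ' n j
    push_cast at h1 ⊢
    linear_combination 2 * h1 + ((n : ℝ) + 1) * h2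

theorem abs_sum (m : ℕ) (τ : Fin (2 * m + 1 + 1) → Bool) :
    ∑ e : Fin (2 * m + 1 + 1) → Bool, |∑ i, sg (τ i) * sg (e i)| =
      2 * ((2 * m + 1 + 1) * ((2 * m + 1).choose (m + 1) : ℝ)) := by
  rw [sign_sum _ τ fun t => |t|]
  have h1 := tele (2 * m + 1) (m + 1)
  have h2 := tele (2 * m + 1) (2 * m + 1 + 1)
  rw [Nat.choose_succ_self] at h2
  have hs := fun F : ℕ → ℝ =>
    (sum_range_add_sum_Ico F (show m + 1 + 1 ≤ 2 * m + 1 + 1 + 1 by omega)).symm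
  rw [hs] at h2 ⊢
  have e1 : ∑ j ∈ range (m + 1 + 1), ((2 * m + 1 + 1).choose j : ℝ) *
      |((2 * m + 1 + 1 : ℕ) : ℝ) - 2 * j| = ∑ j ∈ range (m + 1 + 1),
        ((2 * m + 1 + 1).choose j : ℝ) * (((2 * m + 1 + 1 : ℕ) : ℝ) - 2 * j) := by
    refine sum_congr rfl fun j hj => ?_
    have : (j : ℝ) ≤ m + 1 := by exact_mod_cast Nat.lt_succ_iff.1 (mem_range.1 hj)
    rw [abs_of_nonneg (by push_cast; linarith)]
  have e2 : ∑ j ∈ Ico (m + 1 + 1) (2 * m + 1 + 1 + 1), ((2 * m + 1 + 1).choose j : ℝ) *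
      |((2 * m + 1 + 1 : ℕ) : ℝ) - 2 * j| = -∑ j ∈ Ico (m + 1 + 1) (2 * m + 1 + 1 + 1),
        ((2 * m + 1 + 1).choose j : ℝ) * (((2 * m + 1 + 1 : ℕ) : ℝ) - 2 * j) := by
    rw [← sum_neg_distrib]
    refine sum_congr rfl fun j hj => ?_
    have : (m : ℝ) + 1 + 1 ≤ j := by exact_mod_cast (mem_Ico.1 hj).1
    rw [abs_of_nonpos (by push_cast; linarith)]; ring
  rw [e1, e2]
  push_cast at h1 h2 ⊢
  linarith

theorem cb (m : ℕ) : (2 * ((2 * m + 1).choose (m + 1) : ℝ)) ^ 2 * (3 * m + 4) ≤ 16 ^ (m + 1) := by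
  have h : ∀ m : ℕ, (Nat.centralBinom m : ℝ) ^ 2 * (3 * m + 1) ≤ 16 ^ m := by
    intro m
    induction m with
    | zero => simp
    | succ m ih =>
      have h1 : ((m : ℝ) + 1) * Nat.centralBinom (m + 1) = 2 * (2 * m + 1) * Nat.centralBinom m := by
        exact_mod_cast Nat.succ_mul_centralBinom_succ m
      have h0 : (0 : ℝ) < (m + 1) ^ 2 * (3 * m + 1) := by positivity
      refine le_of_mul_le_mul_left ?_ h0
      push_cast
      have m0 : (0 : ℝ) ≤ m := Nat.cast_nonneg m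
      calc ((m : ℝ) + 1) ^ 2 * (3 * m + 1) * ((Nat.centralBinom (m + 1) : ℝ) ^ 2 * (3 * (m + 1) + 1))
          = (4 * (2 * (m : ℝ) + 1) ^ 2 * (3 * m + 4)) *
            ((Nat.centralBinom m : ℝ) ^ 2 * (3 * m + 1)) := by
            have : ((m : ℝ) + 1) ^ 2 * Nat.centralBinom (m + 1) ^ 2 =
              (2 * (2 * m + 1) * Nat.centralBinom m) ^ 2 := by rw [← h1]; ring
            linear_combination ((3 * (m : ℝ) + 1) * (3 * m + 4)) * this
        _ ≤ (16 * (((m : ℝ) + 1) ^ 2 * (3 * m + 1))) * 16 ^ m :=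
            mul_le_mul (by nlinarith) ih (by positivity) (by positivity)
        _ = _ := by ring
  have h1 := h (m + 1)
  have h2 : Nat.centralBinom (m + 1) = 2 * (2 * m + 1).choose (m + 1) := by
    rw [Nat.centralBinom, show 2 * (m + 1) = 2 * m + 1 + 1 by ring, Nat.choose_succ_succ',
      ← Nat.choose_symm_half m]
    ring
  rw [h2] at h1
  push_cast at h1
  linarith

theorem abs_sum_le (τ : Fin (4 ^ (5 + 1)) → Bool) :
    ∑ e : Fin (4 ^ (5 + 1)) → Bool, |∑ i, sg (τ i) * sg (e i)| ≤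
      (105 / 2) * 2 ^ (4 ^ (5 + 1)) := by
  have gen : ∀ m n : ℕ, n = 2 * m + 1 + 1 → (n : ℝ) ^ 2 ≤ (105 / 2) ^ 2 * (3 * m + 4) →
      ∀ τ : Fin n → Bool, ∑ e : Fin n → Bool, |∑ i, sg (τ i) * sg (e i)| ≤ (105 / 2) * 2 ^ n := by
    rintro m n rfl h τ
    rw [abs_sum]
    have h1 := cb m
    have h2 : (16 : ℝ) ^ (m + 1) = (2 ^ (2 * m + 1 + 1)) ^ 2 := by
      rw [← pow_mul, show (16 : ℝ) = 2 ^ 4 by norm_num, ← pow_mul]; congr 1; ring
    rw [h2] at h1
    push_cast at h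
    refine (abs_le_of_sq_le_sq' ?_ (by positivity)).2
    set C := ((2 * m + 1).choose (m + 1) : ℝ)
    set P : ℝ := 2 ^ (2 * m + 1 + 1)
    calc (2 * ((2 * (m : ℝ) + 1 + 1) * C)) ^ 2 = (2 * m + 1 + 1) ^ 2 * (2 * C) ^ 2 := by ring
      _ ≤ ((105 / 2) ^ 2 * (3 * m + 4)) * (2 * C) ^ 2 := by gcongr
      _ = (105 / 2) ^ 2 * ((2 * C) ^ 2 * (3 * m + 4)) := by ring
      _ ≤ (105 / 2) ^ 2 * P ^ 2 := by gcongr
      _ = _ := by ring
  exact gen 2047 _ (by norm_num) (by norm_num) τ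

end Pool.Agent.H.MP_99e7cc_gt
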